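import Pool.Agent.TH462.SC.Stm

set_option autoImplicit false
set_option linter.unusedSectionVars false

/-! # A small part that is left by few edges: assembly -/

namespace Pool.Agent.TH413.SC4

open Finset
open Pool.Agent.Helper347.Sab (MGraph dg IsCubic)
open Pool.Agent.H10R3.SC (cut ins sum_dg_le)
open Pool.Agent.TH499.TF (Joins Ad N3 Dbl G5 NoC HasTD Grow)
open Pool.Agent.TH462.SC

section

variable {V E : Type} [Fintype V] [DecidableEq V] [Fintype E] [DecidableEq E]

/-- two parallel edges -/
theorem par_cut (G : MGraph V E) (hG : IsCubic G) {x y : V} (hxy : x ≠ y) {e e' : E}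
    (hne : e ≠ e') (he : G.ends e = s(x, y)) (he' : G.ends e' = s(x, y)) :
    (cut G univ {x, y}).card ≤ 3 := by
  have h1 := sum_dg_le G univ {x, y}
  rw [sum_congr rfl fun v _ => hG v, sum_const, card_pair hxy, smul_eq_mul] at h1
  have h2 : ({e, e'} : Finset E) ⊆ ins G univ {x, y} := by
    intro f hf
    rw [mem_insert, mem_singleton] at hf
    unfold ins
    refine mem_filter.2 ⟨mem_univ _, fun u hu => ?_⟩
    rcases hf with rfl | rfl
    · rw [he, Sym2.mem_iff] at hu
      simpa using hu
    · rw [he', Sym2.mem_iff] at hu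
      simpa using hu
  have h3 := card_le_card h2
  rw [card_pair hne] at h3
  omega

/-- a vertex of a cubic graph without parallel edges has three neighbours -/
theorem three_nb (G : MGraph V E) (src dst : E → V) (hG : IsCubic G)
    (hE : ∀ e, G.ends e = s(src e, dst e))
    (hp : ∀ x y, x ≠ y → ∀ e e', G.ends e = s(x, y) → G.ends e' = s(x, y) → e = e') (x : V) :
    ∃ a b c, a ≠ b ∧ b ≠ c ∧ a ≠ c ∧ Ad src dst x a ∧ Ad src dst x b ∧ Ad src dst x c := by
  have h1 := hG x
  unfold dg at h1
  obtain ⟨e1, e2, e3, n12, n13, n23, h2⟩ := card_eq_three.mp h1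
  have key : ∀ e, e ∈ univ.filter (fun e => x ∈ G.ends e) →
      ∃ a, G.ends e = s(x, a) ∧ Ad src dst x a := by
    intro e he
    rw [mem_filter] at he
    have h3 := he.2
    have hl := G.loopless e
    rw [hE, Sym2.mem_iff] at h3
    rw [hE] at hl
    rw [Sym2.isDiag_iff_proj_eq] at hl
    rcases h3 with h3 | h3
    · refine ⟨dst e, by rw [hE, h3], ?_, e, Or.inl ⟨h3.symm, rfl⟩⟩
      rw [h3]; exact hl
    · refine ⟨src e, by rw [hE, h3, Sym2.eq_swap], ?_, e, Or.inr ⟨rfl, h3.symm⟩⟩
      rw [h3]; exact fun h => hl h.symm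
  obtain ⟨a, ha, ha'⟩ := key e1 (by rw [h2]; simp)
  obtain ⟨b, hb, hb'⟩ := key e2 (by rw [h2]; simp)
  obtain ⟨c, hc, hc'⟩ := key e3 (by rw [h2]; simp)
  refine ⟨a, b, c, ?_, ?_, ?_, ha', hb', hc'⟩
  · rintro rfl; exact n12 (hp x a ha'.1 _ _ ha hb)
  · rintro rfl; exact n23 (hp x b hb'.1 _ _ hb hc)
  · rintro rfl; exact n13 (hp x a ha'.1 _ _ ha hc)

end

/-- **Assembly of S7.** -/
theorem s7 (h2 : S2) (h7a : S7a) (h7b : S7b) (h7c : S7c) (h7d : S7d) : S7 := by
  intro V E _ _ _ _ G src dst hG hE hTD hne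
  by_contra hno
  have hno3 : ∀ X : Finset V, 2 ≤ X.card → X.card ≤ 12 → ¬ (cut G univ X).card ≤ 3 :=
    fun X a b c => hno ⟨X, a, b, Or.inl c⟩
  have hno4 : ∀ X : Finset V, 3 ≤ X.card → X.card ≤ 12 → (cut G univ X).card ≤ 4 →
      Rich src dst X → False := by
    intro X a b c d
    rcases Nat.lt_or_ge 3 (cut G univ X).card with h | h
    · exact hno ⟨X, by omega, b, Or.inr ⟨by omega, a, d⟩⟩
    · exact hno3 X (by omega) b h
  have hp : ∀ x y, x ≠ y → ∀ e e', G.ends e = s(x, y) → G.ends e' = s(x, y) → e = e' := by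
    intro x y hxy e e' he he'
    by_contra hee
    exact hno3 {x, y} (card_pair hxy).ge (by rw [card_pair hxy]; norm_num)
      (par_cut G hG hxy hee he he')
  have h3 := three_nb G src dst hG hE hp
  obtain ⟨e0⟩ := hne
  have cardl : ∀ (l : List V), l.Nodup → l.toFinset.card = l.length :=
    fun l hl => List.toFinset_card_of_nodup hl
  refine h2 V E src dst hTD ?_ (fun x y _ => h3 x) ?_
  · obtain ⟨a, _, _, _, _, _, ha, _⟩ := h3 (src e0)
    exact ⟨_, _, ha⟩
  · obtain ⟨k2, k3, ktri⟩ := h7c V E G src dst hG hE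
    refine ⟨⟨fun x hx => hx.1 rfl, fun x y h => h.symm, ?_, ?_⟩, ?_, ?_, ?_, ?_⟩
    · intro x y z a1 a2 a3
      have hnd : [x, y, z].Nodup := by
        have n1 := a1.1
        have n2 := a2.1
        have n3 := a3.1
        simp [n1, n2, Ne.symm n3]
      have hc := cardl _ hnd
      simp only [List.toFinset_cons, List.toFinset_nil, insert_empty_eq, List.length_cons,
        List.length_nil] at hc
      exact hno3 {x, y, z} (by omega) (by omega) (ktri x y z a1 a2 a3)
    · intro x y z w hxz hyw a1 a2 a3 a4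
      have hnd : [x, y, z, w].Nodup := by
        have n1 := a1.1
        have n2 := a2.1
        have n3 := a3.1
        have n4 := a4.1
        simp [n1, n2, n3, hxz, hyw, Ne.symm n4]
      have hc := cardl _ hnd
      simp only [List.toFinset_cons, List.toFinset_nil, insert_empty_eq, List.length_cons,
        List.length_nil] at hc
      obtain ⟨b1, b2⟩ := h7d V E G src dst hG hE hTD x y z w hnd a1 a2 a3 a4
      exact hno4 {x, y, z, w} (by omega) (by omega) b1 b2
    · intro x y a b c d x' y' hnd d1 d2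
      have hc := cardl _ hnd
      simp only [List.toFinset_cons, List.toFinset_nil, insert_empty_eq, List.length_cons,
        List.length_nil] at hc
      obtain ⟨b1, b2⟩ := h7a V E G src dst hG hE hTD x y a b c d x' y' hnd d1 d2
      exact hno4 _ (by omega) (by omega) b1 b2
    · intro u v x1 x2 y1 y2 i i' j j' hnd d1 d2 d3 d4
      have hc := cardl _ hnd
      simp only [List.toFinset_cons, List.toFinset_nil, insert_empty_eq, List.length_cons,
        List.length_nil] at hc
      obtain ⟨b1, b2⟩ := h7b V E G src dst hG hE hTD u v x1 x2 y1 y2 i i' j j' hnd d1 d2 d3 d4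
      exact hno4 _ (by omega) (by omega) b1 b2
    · intro x1 u a y1 n c x2 b y2 x3 y3 hnd d1 d2 d3
      have hc := cardl _ hnd
      simp only [List.toFinset_cons, List.toFinset_nil, insert_empty_eq, List.length_cons,
        List.length_nil] at hc
      exact hno3 _ (by omega) (by omega) (k2 x1 u a y1 n c x2 b y2 x3 y3 hnd d1 d2 d3)
    · intro x1 u b y1 a n x2 c y2 x3 y3 hnd d1 d2 d3
      have hc := cardl _ hnd
      simp only [List.toFinset_cons, List.toFinset_nil, insert_empty_eq, List.length_cons,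
        List.length_nil] at hc
      exact hno3 _ (by omega) (by omega) (k3 x1 u b y1 a n x2 c y2 x3 y3 hnd d1 d2 d3)

end Pool.Agent.TH413.SC4
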